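import Pool.Agent.Helper74.RN.St

set_option autoImplicit false

namespace Pool.Agent.Helper89.RN

open Pool.Agent.Helper74 Pool.Agent.Helper74.RN

private theorem finite_Ce (n : ℕ) : Finite (Ce (Fin n)) := by
  let f : Ce (Fin n) → Option (Option (Option (Fin n))) := fun z => match z with
    | .a x => some (some (some x))
    | .b => some (some none)
    | .c => some none
    | .s => none
  refine Finite.of_injective f ?_
  intro x y h
  cases x <;> cases y <;> simp_all [f]

/-- **UPA** -/
theorem hUPA (hCFM : StCFM) (hTHU : StTHU) (hSIV : StSIV) (hHED : DI.StHED) : StUPA := by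
  intro hall n R
  obtain ⟨g, hg⟩ := hCFM n R
  have hfin := finite_Ce n
  let _ : Fintype (Ce (Fin n)) := Fintype.ofFinite _
  have h1 := hall (Ce (Fin n)) g
  have h2 : {w | w ∈ g.language} = {W : List (Ce (Fin n)) | MM R W} := by
    ext w
    exact hg w
  rw [h2] at h1
  have h4 := hSIV (Fin n) _ ((hHED _ _).2 h1)
  have h5 : {w : List (Option (Fin n)) | Wd w ∈ {W : List (Ce (Fin n)) | MM R W}} = TH R := by
    ext w
    exact hTHU (Fin n) R w
  rw [h5] at h4
  exact (hHED _ _).1 h4

end Pool.Agent.Helper89.RN
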